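import Mathlib
import Pool.Agent.H48.QNeuM

set_option autoImplicit false

namespace Pool.Agent.Results.MP_377342_al.Q2

open Quaternion Matrix

/-- Square quaternion matrices. -/
abbrev Mat (n : ℕ) := Matrix (Fin n) (Fin n) ℍ[ℝ]

/-- Right subspaces of the quaternion column space. -/
abbrev Sub (n : ℕ) := Submodule ℍ[ℝ]ᵐᵒᵖ (Fin n → ℍ[ℝ])

variable {n : ℕ}

def Inv (A : Mat n) (M : Sub n) : Prop := ∀ x ∈ M, A *ᵥ x ∈ M

def Neutral (G : Mat n) (M : Sub n) : Prop := ∀ x ∈ M, ∀ y ∈ M, star x ⬝ᵥ G *ᵥ y = 0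

def Nonneg (G : Mat n) (M : Sub n) : Prop := ∀ x ∈ M, 0 ≤ (star x ⬝ᵥ G *ᵥ x).re

def Nonpos (G : Mat n) (M : Sub n) : Prop := ∀ x ∈ M, (star x ⬝ᵥ G *ᵥ x).re ≤ 0

/-- `l` is a (right) eigenvalue of the restriction of `A` to `M`. -/
def IsEig (A : Mat n) (M : Sub n) (l : ℍ[ℝ]) : Prop :=
  ∃ x ∈ M, x ≠ 0 ∧ A *ᵥ x = fun i => x i * l

/-- The eigenvalues of the restriction of `A` to `M` with nonzero real part. -/
def Spec (A : Mat n) (M : Sub n) : Set ℍ[ℝ] := {l | IsEig A M l ∧ l.re ≠ 0}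

/-- A set of eigenvalues of `A` with the first three properties of a c-set. -/
def PreC (A : Mat n) (S : Set ℍ[ℝ]) : Prop :=
  (∀ l ∈ S, IsEig A ⊤ l) ∧ (∀ l ∈ S, l.re ≠ 0) ∧
    (∀ l ∈ S, ∀ u : ℍ[ℝ], u ≠ 0 → u⁻¹ * l * u ∈ S) ∧ ∀ l ∈ S, -l ∉ S

theorem result (n : ℕ) (H A : Mat n) (hH : IsUnit H) (hs : Hᴴ = -H) (hA : H * A = -(Aᴴ * H))
    (N : Sub n) (hN : Inv A N) (h0 : Neutral (H * A) N) :
    (∀ l ∈ Spec A N, -l ∉ Spec A N) → ∀ S, Maximal (PreC A) S → Spec A N ⊆ S →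
      ∃ Lp Lm : Sub n, N ≤ Lp ∧ N ≤ Lm ∧ Inv A Lp ∧ Inv A Lm ∧
        Maximal (Nonneg (H * A)) Lp ∧ Maximal (Nonpos (H * A)) Lm ∧
        Spec A Lp = S ∧ Spec A Lm = S := by
  have F := Pool.Agent.H48.QNeu.form (starAddEquiv (R := ℍ[ℝ])).toAddMonoidHom
    (fun x y => star_mul x y) (fun x => star_star x) H A hH 1 one_ne_zero hA
    (Or.inr ⟨hs, fun c => by simp⟩)
  simp only [one_mul] at F
  have := Pool.Agent.H48.QNeu.fin n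
  obtain ⟨h1, h2⟩ := F.main (N := N) hN h0
  exact fun _ => h2

end Pool.Agent.Results.MP_377342_al.Q2
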